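import Pool.Agent.helper47.Vis.Defs

set_option autoImplicit false

/-!
# MP_6b3417_co, part III, module III-f: maximal windows and Theorem A

The inputs of the other modules (`exists_par`, `twins`, `lemH`, `Tprime`) are taken as hypotheses.
-/

namespace Pool.Agent.helper77.Vis

open Pool.Agent.helper47.Vis

/-! ### The affine maps -/

/-- `umapR` as an affine map. -/
noncomputable def uA (o u v : ℤ × ℤ) : (ℝ × ℝ) →ᵃ[ℝ] (ℝ × ℝ) where
  toFun := umapR o u v
  linear :=
    { toFun := fun p => (p.1 * u.1 + p.2 * v.1, p.1 * u.2 + p.2 * v.2)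
      map_add' := fun p q => by
        ext <;> simp <;> ring
      map_smul' := fun c p => by
        ext <;> simp <;> ring }
  map_vadd' := fun p q => by
    ext <;> simp [umapR] <;> ring

@[simp] lemma uA_apply (o u v : ℤ × ℤ) (p : ℝ × ℝ) : uA o u v p = umapR o u v p := rfl

lemma toR_umap (o u v p : ℤ × ℤ) : toR (umap o u v p) = umapR o u v (toR p) := by
  ext <;> simp [toR, umap, umapR]

/-- The inverse map. -/
lemma exists_inv {u v : ℤ × ℤ} (h : IsBas u v) (o : ℤ × ℤ) :
    ∃ o' u' v' : ℤ × ℤ, IsBas u' v' ∧ (∀ p, umapR o u v (umapR o' u' v' p) = p) ∧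
      (∀ p, umapR o' u' v' (umapR o u v p) = p) ∧
      (∀ p, umap o u v (umap o' u' v' p) = p) ∧ (∀ p, umap o' u' v' (umap o u v p) = p) := by
  obtain ⟨e, he, hu⟩ : ∃ e : ℤ, (e = 1 ∨ e = -1) ∧ u.1 * v.2 - u.2 * v.1 = e := by
    rcases h with h | h
    · exact ⟨1, Or.inl rfl, h⟩
    · exact ⟨-1, Or.inr rfl, h⟩
  have he2 : e * e = 1 := by rcases he with rfl | rfl <;> norm_num
  have hdet : e * (u.1 * v.2 - u.2 * v.1) = 1 := by rw [hu, he2]
  have hdetR : (e : ℝ) * (u.1 * v.2 - u.2 * v.1) = 1 := by exact_mod_cast hdet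
  refine ⟨(-(e * (v.2 * o.1 - v.1 * o.2)), -(e * (-u.2 * o.1 + u.1 * o.2))),
    (e * v.2, -(e * u.2)), (-(e * v.1), e * u.1), ?_, ?_, ?_, ?_, ?_⟩
  · have : e * v.2 * (e * u.1) - -(e * u.2) * -(e * v.1) = e := by
      have : e * v.2 * (e * u.1) - -(e * u.2) * -(e * v.1)
          = e * (e * (u.1 * v.2 - u.2 * v.1)) := by ring
      rw [this, hdet, mul_one]
    rcases he with rfl | rfl
    · exact Or.inl this
    · exact Or.inr this
  · intro p
    ext
    · simp only [umapR]
      push_cast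
      linear_combination (p.1 - o.1 : ℝ) * hdetR
    · simp only [umapR]
      push_cast
      linear_combination (p.2 - o.2 : ℝ) * hdetR
  · intro p
    ext
    · simp only [umapR]
      push_cast
      linear_combination p.1 * hdetR
    · simp only [umapR]
      push_cast
      linear_combination p.2 * hdetR
  · intro p
    ext
    · simp only [umap]
      linear_combination (p.1 - o.1) * hdet
    · simp only [umap]
      linear_combination (p.2 - o.2) * hdet
  · intro p
    ext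
    · simp only [umap]
      linear_combination p.1 * hdet
    · simp only [umap]
      linear_combination p.2 * hdet

lemma umapR_injective {o u v : ℤ × ℤ} (h : IsBas u v) : Function.Injective (umapR o u v) := by
  obtain ⟨o', u', v', -, -, h2, -, -⟩ := exists_inv h o
  exact Function.LeftInverse.injective h2

lemma umap_injective {o u v : ℤ × ℤ} (h : IsBas u v) : Function.Injective (umap o u v) := by
  obtain ⟨o', u', v', -, -, -, -, h2⟩ := exists_inv h o
  exact Function.LeftInverse.injective h2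

lemma umap_surjective {o u v : ℤ × ℤ} (h : IsBas u v) : Function.Surjective (umap o u v) := by
  obtain ⟨o', u', v', -, -, -, h2, -⟩ := exists_inv h o
  exact Function.RightInverse.surjective h2

/-! ### Transport of visibility -/

lemma mem_openSegment_umapR {o u v : ℤ × ℤ} (h : IsBas u v) (p q r : ℝ × ℝ) :
    umapR o u v r ∈ openSegment ℝ (umapR o u v p) (umapR o u v q) ↔ r ∈ openSegment ℝ p q := by
  have h1 := image_openSegment ℝ (uA o u v) p q
  simp only [uA_apply] at h1
  rw [← h1]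
  constructor
  · rintro ⟨r', hr', he⟩
    have : r' = r := umapR_injective h he
    rwa [← this]
  · intro hr
    exact ⟨r, hr, rfl⟩

lemma mem_openSegment_umap {o u v : ℤ × ℤ} (h : IsBas u v) (p q r : ℤ × ℤ) :
    toR (umap o u v r) ∈ openSegment ℝ (toR (umap o u v p)) (toR (umap o u v q)) ↔
      toR r ∈ openSegment ℝ (toR p) (toR q) := by
  rw [toR_umap, toR_umap, toR_umap, mem_openSegment_umapR h]

lemma sees_image {o u v : ℤ × ℤ} (h : IsBas u v) (P : Set (ℝ × ℝ)) (p q : ℝ × ℝ) :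
    Sees (umapR o u v '' P) (umapR o u v p) (umapR o u v q) ↔ Sees P p q := by
  constructor
  · rintro ⟨h1, h2⟩
    refine ⟨fun e => h1 (by rw [e]), fun r hr hs => h2 _ ⟨r, hr, rfl⟩ ?_⟩
    rwa [mem_openSegment_umapR h]
  · rintro ⟨h1, h2⟩
    refine ⟨fun e => h1 (umapR_injective h e), ?_⟩
    rintro _ ⟨r, hr, rfl⟩ hs
    rw [mem_openSegment_umapR h] at hs
    exact h2 r hr hs

lemma K5free_image {o u v : ℤ × ℤ} (h : IsBas u v) (P : Set (ℝ × ℝ)) :
    K5free (umapR o u v '' P) ↔ K5free P := by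
  unfold K5free
  rw [not_iff_not]
  constructor
  · rintro ⟨f, hf, hs⟩
    choose g hg hgf using hf
    refine ⟨g, hg, fun i j hij => ?_⟩
    rw [← sees_image h, hgf, hgf]
    exact hs i j hij
  · rintro ⟨f, hf, hs⟩
    refine ⟨fun i => umapR o u v (f i), fun i => ⟨f i, hf i, rfl⟩, fun i j hij => ?_⟩
    rw [sees_image h]
    exact hs i j hij

lemma sameLab_umap {o u v a b : ℤ × ℤ} (h : SameLab a b) :
    SameLab (umap o u v a) (umap o u v b) := by
  obtain ⟨⟨x, hx⟩, ⟨y, hy⟩⟩ := h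
  constructor
  · refine ⟨x * u.1 + y * v.1, ?_⟩
    simp only [umap]
    linear_combination u.1 * hx + v.1 * hy
  · refine ⟨x * u.2 + y * v.2, ?_⟩
    simp only [umap]
    linear_combination u.2 * hx + v.2 * hy

lemma good_preimage {o u v : ℤ × ℤ} (h : IsBas u v) {G : Set (ℤ × ℤ)} (hG : Good G) :
    Good (umap o u v ⁻¹' G) := by
  intro a ha b hb hab hl
  obtain ⟨c, hc, hcs⟩ := hG _ ha _ hb (fun e => hab (umap_injective h e)) (sameLab_umap hl)
  obtain ⟨c', rfl⟩ := umap_surjective (o := o) h c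
  exact ⟨c', hc, (mem_openSegment_umap h a b c').1 hcs⟩

lemma umap_comp (o u v o' u' v' p : ℤ × ℤ) :
    umap o u v (umap o' u' v' p) =
      umap (umap o u v o') (u'.1 * u.1 + u'.2 * v.1, u'.1 * u.2 + u'.2 * v.2)
        (v'.1 * u.1 + v'.2 * v.1, v'.1 * u.2 + v'.2 * v.2) p := by
  ext <;> simp [umap] <;> ring

lemma isBas_comp {u v u' v' : ℤ × ℤ} (h : IsBas u v) (h' : IsBas u' v') :
    IsBas (u'.1 * u.1 + u'.2 * v.1, u'.1 * u.2 + u'.2 * v.2)
        (v'.1 * u.1 + v'.2 * v.1, v'.1 * u.2 + v'.2 * v.2) := by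
  unfold IsBas at *
  have key : (u'.1 * u.1 + u'.2 * v.1) * (v'.1 * u.2 + v'.2 * v.2) -
      (u'.1 * u.2 + u'.2 * v.2) * (v'.1 * u.1 + v'.2 * v.1)
      = (u.1 * v.2 - u.2 * v.1) * (u'.1 * v'.2 - u'.2 * v'.1) := by ring
  simp only
  rw [key]
  rcases h with h | h <;> rcases h' with h' | h' <;> rw [h, h'] <;> norm_num

lemma hasWindow_preimage {o u v : ℤ × ℤ} (h : IsBas u v) {G : Set (ℤ × ℤ)} {M : ℕ}
    (hw : HasWindow (umap o u v ⁻¹' G) M) : HasWindow G M := by
  obtain ⟨o', u', v', h', hp⟩ := hw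
  refine ⟨umap o u v o', _, _, isBas_comp h h', fun p hpB => ?_⟩
  rw [← umap_comp o u v o' u' v' p]
  exact hp p hpB

/-! ### Good sets are `K₅`-free -/

lemma good_not_sees {G : Set (ℤ × ℤ)} (hG : Good G) {a b : ℤ × ℤ} (ha : a ∈ G) (hb : b ∈ G)
    (hl : SameLab a b) : ¬ Sees (toR '' G) (toR a) (toR b) := by
  rintro ⟨h1, h2⟩
  obtain ⟨c, hc, hcs⟩ := hG a ha b hb (fun e => h1 (by rw [e])) hl
  exact h2 _ ⟨c, hc, rfl⟩ hcs

lemma good_K5free {G : Set (ℤ × ℤ)} (hG : Good G) : K5free (toR '' G) := by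
  rintro ⟨f, hf, hs⟩
  choose g hg hgf using hf
  let lab : Fin 5 → ZMod 2 × ZMod 2 := fun i => (((g i).1 : ZMod 2), ((g i).2 : ZMod 2))
  obtain ⟨i, j, hij, he⟩ := Fintype.exists_ne_map_eq_of_card_lt lab (by decide)
  have h1 := congrArg Prod.fst he
  have h2 := congrArg Prod.snd he
  simp only [lab] at h1 h2
  have e1 : (2 : ℤ) ∣ (g i).1 - (g j).1 := by
    have := (ZMod.intCast_eq_intCast_iff_dvd_sub (g j).1 (g i).1 2).1 h1.symm
    exact_mod_cast this
  have e2 : (2 : ℤ) ∣ (g i).2 - (g j).2 := by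
    have := (ZMod.intCast_eq_intCast_iff_dvd_sub (g j).2 (g i).2 2).1 h2.symm
    exact_mod_cast this
  have := hs i j hij
  rw [← hgf, ← hgf] at this
  exact good_not_sees hG (hg i) (hg j) ⟨e1, e2⟩ this

lemma good_box (M : ℕ) : Good (Box M) := by
  rintro a ⟨a1, a2, a3, a4⟩ b ⟨b1, b2, b3, b4⟩ hab ⟨⟨x, hx⟩, ⟨y, hy⟩⟩
  refine ⟨(b.1 + x, b.2 + y), ⟨?_, ?_, ?_, ?_⟩, mid_mem_openSegment a b _ ?_ ?_⟩ <;> simp only <;>
    omega

/-! ### Maximal windows -/

lemma box_mono {M N : ℕ} (h : M ≤ N) : Box M ⊆ Box N := by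
  rintro p ⟨h1, h2, h3, h4⟩
  refine ⟨h1, ?_, h3, ?_⟩ <;> omega

lemma hasWindow_box {M : ℕ} {G : Set (ℤ × ℤ)} (h : Box M ⊆ G) : HasWindow G M := by
  refine ⟨(0, 0), (1, 0), (0, 1), Or.inl (by norm_num), fun p hp => ?_⟩
  have : umap (0, 0) (1, 0) (0, 1) p = p := by
    ext <;> simp [umap]
  rw [this]
  exact h hp

lemma hasWindow_bounded {G : Set (ℤ × ℤ)} (hfin : G.Finite) : ∃ N : ℕ, ∀ M, HasWindow G M → M ≤ N := by
  refine ⟨G.ncard, fun M hM => ?_⟩
  obtain ⟨o, u, v, hb, hp⟩ := hM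
  have h1 : Function.Injective (fun i : ℕ => umap o u v ((i : ℤ), 0)) := by
    intro i j hij
    have := umap_injective hb hij
    have := congrArg Prod.fst this
    simpa using this
  have h2 : ((Finset.range M).image (fun i : ℕ => umap o u v ((i : ℤ), 0)) : Set (ℤ × ℤ)) ⊆ G := by
    intro x hx
    simp only [Finset.coe_image, Set.mem_image, Finset.coe_range, Set.mem_Iio] at hx
    obtain ⟨i, hi, rfl⟩ := hx
    refine hp _ ⟨?_, ?_, ?_, ?_⟩ <;> simp only <;> omega
  have h3 := Set.ncard_le_ncard h2 hfin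
  rw [Set.ncard_coe_finset, Finset.card_image_of_injective _ h1, Finset.card_range] at h3
  exact h3

lemma exists_max {G : Set (ℤ × ℤ)} (hfin : G.Finite) {M₀ : ℕ} (h : HasWindow G M₀) :
    ∃ M, M₀ ≤ M ∧ HasWindow G M ∧ ¬ HasWindow G (M + 1) := by
  classical
  obtain ⟨N, hN⟩ := hasWindow_bounded hfin
  obtain ⟨M, ⟨h1, h2⟩, hmax⟩ : ∃ M, (M₀ ≤ M ∧ HasWindow G M) ∧
      ∀ M', (M₀ ≤ M' ∧ HasWindow G M') → M' ≤ M := by
    refine ⟨Nat.findGreatest (fun M => M₀ ≤ M ∧ HasWindow G M) N,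
      Nat.findGreatest_spec (P := fun M => M₀ ≤ M ∧ HasWindow G M) (hN _ h) ⟨le_refl _, h⟩,
      fun M' hM' => Nat.le_findGreatest (hN _ hM'.2) hM'⟩
  refine ⟨M, h1, h2, fun h3 => ?_⟩
  have := hmax (M + 1) ⟨by omega, h3⟩
  omega

/-- The parameter statement. -/
def ExistsPar : Prop := ∃ M₀ : ℕ, 5 ≤ M₀ ∧ ∀ M : ℕ, M₀ ≤ M → ∃ R K : ℕ, Par M R K

/-- Statement III.6. -/
def LemH : Prop := ∀ {M R K : ℕ}, Par M R K → 5 ≤ M → ∀ G : Set (ℤ × ℤ), G.Finite → Good G →
  Box M ⊆ G → ¬ HasWindow G (M + 1) → ∀ y : ℝ × ℝ, K5free (insert y (toR '' G)) → Handled K y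

/-- Statement III.2. -/
def Twins : Prop := ∀ {M R K : ℕ}, Par M R K → ∀ G : Set (ℤ × ℤ), Box M ⊆ G → ∀ x a : ℤ × ℤ,
  x ∈ G → a ∈ G → SameLab x a → Sees (toR '' G) (toR x) (toR a) → Handled K (toR x) →
  Handled K (toR a) → ¬ K5free (toR '' G)

/-- Statement III.7. -/
def TPrime : Prop := ∀ {M R K : ℕ}, Par M R K → 5 ≤ M → ∀ G : Set (ℤ × ℤ), Box M ⊆ G →
  ∀ x : ℝ × ℝ, x ∉ Set.range toR → x ∉ convexHull ℝ (toR '' Box M) → Handled K x →
  ¬ K5free (insert x (toR '' G))

theorem max_window_aux {M₀ : ℕ} (hM₀ : 5 ≤ M₀) (hpar : ∀ M : ℕ, M₀ ≤ M → ∃ R K : ℕ, Par M R K)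
    (hH : LemH) (G : Set (ℤ × ℤ)) (hfin : G.Finite) (hG : Good G) (hB : Box M₀ ⊆ G) :
    ∃ M R K : ℕ, Par M R K ∧ 5 ≤ M ∧ M₀ ≤ M ∧ ∃ o u v : ℤ × ℤ, IsBas u v ∧
      Box M ⊆ umap o u v ⁻¹' G ∧ Good (umap o u v ⁻¹' G) ∧ (umap o u v ⁻¹' G).Finite ∧
      ¬ HasWindow (umap o u v ⁻¹' G) (M + 1) ∧
      ∀ z ∈ umap o u v ⁻¹' G, Handled K (toR z) := by
  obtain ⟨M, hM, ⟨o, u, v, hb, hp⟩, hno⟩ := exists_max hfin (hasWindow_box hB)
  obtain ⟨R, K, hRK⟩ := hpar M hM
  have hgood := good_preimage (o := o) hb hG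
  have hfin' : (umap o u v ⁻¹' G).Finite := hfin.preimage (umap_injective hb).injOn
  have hno' : ¬ HasWindow (umap o u v ⁻¹' G) (M + 1) := fun h => hno (hasWindow_preimage hb h)
  refine ⟨M, R, K, hRK, by omega, hM, o, u, v, hb, fun p hpB => hp p hpB, hgood, hfin', hno', ?_⟩
  intro z hz
  refine hH hRK (by omega) _ hfin' hgood (fun p hpB => hp p hpB) hno' (toR z) ?_
  rw [Set.insert_eq_of_mem (Set.mem_image_of_mem _ hz)]
  exact good_K5free hgood

/-- The maximal window of a good finite set, normalised; all points are handled. -/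
theorem exists_max_window_of (hpar : ExistsPar) (hH : LemH) :
    ∃ M₀ : ℕ, ∀ G : Set (ℤ × ℤ), G.Finite → Good G → Box M₀ ⊆ G →
    ∃ M R K : ℕ, Par M R K ∧ 5 ≤ M ∧ M₀ ≤ M ∧ ∃ o u v : ℤ × ℤ, IsBas u v ∧
      Box M ⊆ umap o u v ⁻¹' G ∧ Good (umap o u v ⁻¹' G) ∧ (umap o u v ⁻¹' G).Finite ∧
      ¬ HasWindow (umap o u v ⁻¹' G) (M + 1) ∧
      ∀ z ∈ umap o u v ⁻¹' G, Handled K (toR z) := by
  obtain ⟨M₀, h5, h⟩ := hpar
  exact ⟨M₀, fun G hfin hG hB => max_window_aux h5 h hH G hfin hG hB⟩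

/-! ### Theorem A -/

lemma exists_extreme {P : Set (ℝ × ℝ)} (hfin : P.Finite) {C : Set (ℝ × ℝ)} (hC : Convex ℝ C)
    (hCc : IsClosed C) (hn : ¬ P ⊆ C) :
    ∃ x ∈ P, x ∉ C ∧ x ∉ convexHull ℝ (P \ {x}) := by
  by_contra hcon
  push_neg at hcon
  apply hn
  have hcomp : IsCompact (convexHull ℝ P) := hfin.isCompact_convexHull (𝕜 := ℝ)
  have h1 := closure_convexHull_extremePoints (E := ℝ × ℝ) hcomp (convex_convexHull ℝ P)
  have h2 : (convexHull ℝ P).extremePoints ℝ ⊆ C := by
    intro x hx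
    by_contra hxC
    have hxP : x ∈ P := extremePoints_convexHull_subset (𝕜 := ℝ) hx
    have h3 := hcon x hxP hxC
    have h4 := (Convex.mem_extremePoints_iff_mem_diff_convexHull_diff
      (convex_convexHull ℝ P)).1 hx
    apply h4.2
    exact convexHull_mono (Set.diff_subset_diff_left (subset_convexHull ℝ P)) h3
  have h5 : closure (convexHull ℝ ((convexHull ℝ P).extremePoints ℝ)) ⊆ C :=
    closure_minimal (convexHull_min h2 hC) hCc
  rw [h1] at h5
  exact (subset_convexHull ℝ P).trans h5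

lemma insert_image_umapR {o u v : ℤ × ℤ} (hb : IsBas u v) (G : Set (ℤ × ℤ)) (y : ℝ × ℝ) :
    umapR o u v '' (insert y (toR '' (umap o u v ⁻¹' G))) =
      insert (umapR o u v y) (toR '' G) := by
  rw [Set.image_insert_eq]
  congr 1
  ext q
  constructor
  · rintro ⟨_, ⟨z, hz, rfl⟩, rfl⟩
    exact ⟨_, hz, toR_umap _ _ _ _⟩
  · rintro ⟨z, hz, rfl⟩
    obtain ⟨z', rfl⟩ := umap_surjective (o := o) hb z
    exact ⟨_, ⟨z', hz, rfl⟩, (toR_umap _ _ _ _).symm⟩

theorem theoremA_of (hpar : ExistsPar) (hH : LemH) (hT : Twins) (hT' : TPrime) :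
    ∃ M₀ : ℕ, ∀ M : ℕ, M₀ ≤ M → ∀ P : Set (ℝ × ℝ), P.Finite → K5free P →
    toR '' Box M ⊆ P →
    (∀ p ∈ P, 0 ≤ p.1 → p.1 ≤ M → 0 ≤ p.2 → p.2 ≤ M → p ∈ toR '' Box M) →
    ∃ G : Set (ℤ × ℤ), P = toR '' G ∧ Good G := by
  obtain ⟨M₀, h5, hpar⟩ := hpar
  refine ⟨M₀, fun M hM => ?_⟩
  have main : ∀ n : ℕ, ∀ P : Set (ℝ × ℝ), P.ncard = n → P.Finite → K5free P →
    toR '' Box M ⊆ P →
    (∀ p ∈ P, 0 ≤ p.1 → p.1 ≤ M → 0 ≤ p.2 → p.2 ≤ M → p ∈ toR '' Box M) →
    ∃ G : Set (ℤ × ℤ), P = toR '' G ∧ Good G := by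
    intro n
    induction n with
    | zero =>
      intro P hn hfin _ hW _
      rw [Set.ncard_eq_zero hfin] at hn
      subst hn
      exfalso
      exact hW ⟨(0, 0), ⟨le_refl _, by positivity, le_refl _, by positivity⟩, rfl⟩
    | succ n ih =>
      intro P hn hfin hK hW hbox
      by_cases hsub : P ⊆ Set.Icc (0 : ℝ) M ×ˢ Set.Icc (0 : ℝ) M
      · refine ⟨Box M, ?_, good_box M⟩
        apply Set.Subset.antisymm _ hW
        intro p hp
        obtain ⟨h1, h2⟩ := hsub hp
        exact hbox p hp h1.1 h1.2 h2.1 h2.2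
      · obtain ⟨x, hxP, hxC, hxh⟩ := exists_extreme hfin
          ((convex_Icc (0 : ℝ) M).prod (convex_Icc (0 : ℝ) M)) (isClosed_Icc.prod isClosed_Icc) hsub
        have hxW : x ∉ toR '' Box M := by
          rintro ⟨z, ⟨h1, h2, h3, h4⟩, rfl⟩
          apply hxC
          refine ⟨⟨?_, ?_⟩, ⟨?_, ?_⟩⟩ <;> simp only [toR] <;> exact_mod_cast (by assumption)
        have hPx : (P \ {x}).ncard = n := by
          have := Set.ncard_diff_singleton_add_one hxP hfin
          omega
        have hWx : toR '' Box M ⊆ P \ {x} := by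
          intro q hq
          refine ⟨hW hq, ?_⟩
          rintro rfl
          exact hxW hq
        -- `P ∖ {x}` is `K₅`-free
        have hKx : K5free (P \ {x}) := by
          rintro ⟨f, hf, hs⟩
          apply hK
          refine ⟨f, fun i => (hf i).1, fun i j hij => ⟨(hs i j hij).1, fun r hr hrs => ?_⟩⟩
          by_cases hrx : r = x
          · subst hrx
            apply hxh
            have hc := convex_convexHull ℝ (P \ {r})
            exact hc.openSegment_subset (subset_convexHull ℝ _ (hf i))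
              (subset_convexHull ℝ _ (hf j)) hrs
          · exact (hs i j hij).2 r ⟨hr, hrx⟩ hrs
        obtain ⟨G, hG, hgood⟩ := ih (P \ {x}) hPx (hfin.subset Set.diff_subset) hKx hWx
          (fun p hp => hbox p hp.1)
        have hPeq : P = insert x (toR '' G) := by
          rw [← hG, Set.insert_diff_singleton, Set.insert_eq_of_mem hxP]
        have hGfin : G.Finite := by
          have : (toR '' G).Finite := by rw [← hG]; exact hfin.subset Set.diff_subset
          exact this.of_finite_image toR_injective.injOn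
        have hBG : Box M₀ ⊆ G := by
          intro z hz
          have : toR z ∈ toR '' G := by
            rw [← hG]
            exact hWx ⟨z, box_mono hM hz, rfl⟩
          exact mem_toR_image.1 this
        obtain ⟨M', R, K, hp, hM5, -, o, u, v, hb, hBox, hgood', hfin', hno, hhand⟩ :=
          max_window_aux h5 hpar hH G hGfin hgood hBG
        obtain ⟨o', u', v', hb', hi1, hi2, hj1, hj2⟩ := exists_inv hb o
        set y : ℝ × ℝ := umapR o' u' v' x with hy
        have hxy : umapR o u v y = x := hi1 x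
        set G' : Set (ℤ × ℤ) := umap o u v ⁻¹' G with hG'
        have himg : umapR o u v '' (insert y (toR '' G')) = P := by
          rw [hG', insert_image_umapR hb, hxy, hPeq]
        have hK' : K5free (insert y (toR '' G')) := by
          rw [← K5free_image (o := o) hb, himg]
          exact hK
        have hyh : Handled K y := hH hp hM5 G' hfin' hgood' hBox hno y hK'
        have hyW : y ∉ convexHull ℝ (toR '' Box M') := by
          intro hyW
          apply hxh
          have h1 : umapR o u v y ∈ (uA o u v) '' (convexHull ℝ (toR '' Box M')) := ⟨y, hyW, rfl⟩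
          rw [AffineMap.image_convexHull, hxy] at h1
          refine convexHull_mono ?_ h1
          rintro _ ⟨_, ⟨z, hz, rfl⟩, rfl⟩
          rw [uA_apply, ← toR_umap, hG]
          exact ⟨_, hBox hz, rfl⟩
        have hyr : y ∈ Set.range toR := by
          by_contra hyr
          exact hT' hp hM5 G' hBox y hyr hyW hyh hK'
        obtain ⟨y', hy'⟩ := hyr
        have hx' : x = toR (umap o u v y') := by
          rw [toR_umap, hy', hxy]
        have hins : insert y (toR '' G') = toR '' (insert y' G') := by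
          rw [Set.image_insert_eq, hy']
        -- the new set is good
        have hsee : ∀ a ∈ G', y' ≠ a → SameLab y' a →
            ∃ c ∈ insert y' G', toR c ∈ openSegment ℝ (toR y') (toR a) := by
          intro a ha hne hl
          by_contra hcon
          push_neg at hcon
          refine hT hp (insert y' G') (hBox.trans (Set.subset_insert _ _)) y' a
            (Set.mem_insert _ _) (Set.mem_insert_of_mem _ ha) hl ?_ ?_ (hhand a ha) ?_
          · refine ⟨fun e => hne (toR_injective e), ?_⟩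
            rintro _ ⟨c, hc, rfl⟩
            exact hcon c hc
          · rw [hy']; exact hyh
          · rw [← hins]; exact hK'
        have hgoodn : Good (insert y' G') := by
          intro a ha b hb2 hab hl
          rcases Set.mem_insert_iff.1 ha with rfl | ha'
          · rcases Set.mem_insert_iff.1 hb2 with rfl | hb2'
            · exact absurd rfl hab
            · exact hsee b hb2' hab hl
          · rcases Set.mem_insert_iff.1 hb2 with rfl | hb2'
            · obtain ⟨c, hc, hcs⟩ := hsee a ha' (Ne.symm hab)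
                ⟨by obtain ⟨k, hk⟩ := hl.1; exact ⟨-k, by omega⟩,
                 by obtain ⟨k, hk⟩ := hl.2; exact ⟨-k, by omega⟩⟩
              exact ⟨c, hc, by rwa [openSegment_symm]⟩
            · obtain ⟨c, hc, hcs⟩ := hgood' a ha' b hb2' hab hl
              exact ⟨c, Set.mem_insert_of_mem _ hc, hcs⟩
        refine ⟨insert (umap o u v y') G, ?_, ?_⟩
        · rw [hPeq, Set.image_insert_eq, ← hx']
        · have h1 := good_preimage (o := o') hb' hgoodn
          have h2 : umap o' u' v' ⁻¹' (insert y' G') = insert (umap o u v y') G := by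
            ext z
            simp only [Set.mem_preimage, Set.mem_insert_iff, hG']
            rw [hj1]
            constructor
            · rintro (h | h)
              · left; rw [← h, hj1]
              · right; exact h
            · rintro (h | h)
              · left; rw [h, hj2]
              · right; exact h
          rw [← h2]
          exact h1
  intro P hfin hK hW hbox
  exact main _ P rfl hfin hK hW hbox

end Pool.Agent.helper77.Vis
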